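import Pool.Agent.Helper97.CG.Stmts

namespace Pool.Agent.Helper52.CG

open MvPolynomial Matrix Pool.Agent.Helper14.RG Pool.Agent.Helper97.CG

universe u

theorem st_PRD {k : Type u} [Field k] [IsAlgClosed k] [CharZero k] : ST_PRD k := by
  intro G₁ G₂ _ _ n m _ _ _ _ ρ₁ ρ₂ s₁ s₂ h1 h2
  obtain ⟨N₁, _, _, ⟨c1⟩⟩ := h1
  obtain ⟨N₂, _, _, ⟨c2⟩⟩ := h2
  have hm1 : ∀ a ∈ mAlg ρ₁, (fun g : G₁ × G₂ => a g.1) ∈ mAlg (pHom ρ₁ ρ₂) := by
    intro a ha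
    induction ha using Algebra.adjoin_induction with
    | mem x hx =>
      obtain ⟨i, j, rfl⟩ := hx
      exact Algebra.subset_adjoin ⟨Sum.inl i, Sum.inl j, rfl⟩
    | algebraMap r => exact Subalgebra.algebraMap_mem _ r
    | add x y _ _ hx hy => exact add_mem hx hy
    | mul x y _ _ hx hy => exact mul_mem hx hy
  have hm2 : ∀ a ∈ mAlg ρ₂, (fun g : G₁ × G₂ => a g.2) ∈ mAlg (pHom ρ₁ ρ₂) := by
    intro a ha
    induction ha using Algebra.adjoin_induction with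
    | mem x hx =>
      obtain ⟨i, j, rfl⟩ := hx
      exact Algebra.subset_adjoin ⟨Sum.inr i, Sum.inr j, rfl⟩
    | algebraMap r => exact Subalgebra.algebraMap_mem _ r
    | add x y _ _ hx hy => exact add_mem hx hy
    | mul x y _ _ hx hy => exact mul_mem hx hy
  have hl : ∀ g : G₁ × G₂, fromBlocks s₁ 0 0 s₂ * pHom ρ₁ ρ₂ g
      = fromBlocks (s₁ * ρ₁ g.1) 0 0 (s₂ * ρ₂ g.2) := by
    intro g
    show fromBlocks s₁ 0 0 s₂ * fromBlocks (ρ₁ g.1) 0 0 (ρ₂ g.2) = _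
    rw [fromBlocks_multiply]
    simp
  have hr : ∀ g : G₁ × G₂, pHom ρ₁ ρ₂ g * fromBlocks s₁ 0 0 s₂
      = fromBlocks (ρ₁ g.1 * s₁) 0 0 (ρ₂ g.2 * s₂) := by
    intro g
    show fromBlocks (ρ₁ g.1) 0 0 (ρ₂ g.2) * fromBlocks s₁ 0 0 s₂ = _
    rw [fromBlocks_multiply]
    simp
  have hcm : ∀ g : G₁ × G₂, g ∈ cm (pHom ρ₁ ρ₂) (fromBlocks s₁ 0 0 s₂) ↔
      g.1 ∈ cm ρ₁ s₁ ∧ g.2 ∈ cm ρ₂ s₂ := by
    intro g
    show fromBlocks s₁ 0 0 s₂ * pHom ρ₁ ρ₂ g = pHom ρ₁ ρ₂ g * fromBlocks s₁ 0 0 s₂ ↔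
      s₁ * ρ₁ g.1 = ρ₁ g.1 * s₁ ∧ s₂ * ρ₂ g.2 = ρ₂ g.2 * s₂
    rw [hl, hr, fromBlocks_inj]
    tauto
  have hcmm : ∀ g : G₁ × G₂, g ∈ cmm (pHom ρ₁ ρ₂) (fromBlocks s₁ 0 0 s₂) →
      g.1 ∈ cmm ρ₁ s₁ ∧ g.2 ∈ cmm ρ₂ s₂ := by
    intro g hg
    have hg' : fromBlocks s₁ 0 0 s₂ * pHom ρ₁ ρ₂ g = pHom ρ₁ ρ₂ g * fromBlocks s₁ 0 0 s₂ ∨
      fromBlocks s₁ 0 0 s₂ * pHom ρ₁ ρ₂ g = -(pHom ρ₁ ρ₂ g * fromBlocks s₁ 0 0 s₂) := hg
    rw [hl, hr, fromBlocks_neg, fromBlocks_inj, fromBlocks_inj] at hg'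
    rcases hg' with hg' | hg'
    · exact ⟨Or.inl hg'.1, Or.inl hg'.2.2.2⟩
    · exact ⟨Or.inr hg'.1, Or.inr hg'.2.2.2⟩
  refine ⟨N₁ ⊕ N₂, inferInstance, inferInstance, ⟨{
    hH := cm_le_cmm _ _
    q0 := fun g => c1.q0 g.1 * c2.q0 g.2
    q0_mem := mul_mem (hm1 _ c1.q0_mem) (hm2 _ c2.q0_mem)
    q0_ne := ?_
    t := fun g => Sum.elim (c1.t g.1) (c2.t g.2)
    treg := ?_
    sep := ?_
    dom := ?_
    inv := ?_
    equiv := ?_ }⟩⟩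
  · obtain ⟨g1, hg1⟩ := Function.ne_iff.mp c1.q0_ne
    obtain ⟨g2, hg2⟩ := Function.ne_iff.mp c2.q0_ne
    exact Function.ne_iff.mpr ⟨(g1, g2), mul_ne_zero hg1 hg2⟩
  · rintro (j | j)
    · obtain ⟨a, ha, b, hb, h⟩ := c1.treg j
      exact ⟨_, hm1 a ha, _, hm1 b hb, fun g hg => h g.1 (left_ne_zero_of_mul hg)⟩
    · obtain ⟨a, ha, b, hb, h⟩ := c2.treg j
      exact ⟨_, hm2 a ha, _, hm2 b hb, fun g hg => h g.2 (right_ne_zero_of_mul hg)⟩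
  · intro g g' hg hg' ht
    obtain ⟨h1, hh1, e1⟩ := c1.sep g.1 g'.1 (left_ne_zero_of_mul hg) (left_ne_zero_of_mul hg')
      (funext fun j => congrFun ht (Sum.inl j))
    obtain ⟨h2, hh2, e2⟩ := c2.sep g.2 g'.2 (right_ne_zero_of_mul hg) (right_ne_zero_of_mul hg')
      (funext fun j => congrFun ht (Sum.inr j))
    exact ⟨(h1, h2), (hcm _).mpr ⟨hh1, hh2⟩, Prod.ext e1 e2⟩
  · intro P hP
    let Q : MvPolynomial (N₂ ⊕ N₁) k := rename Sum.swap P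
    have hQ : Q ≠ 0 := by
      intro h0
      apply hP
      exact rename_injective _ (Equiv.sumComm N₁ N₂).injective (h0.trans (map_zero _).symm)
    have hev : ∀ (a : N₁ → k) (b : N₂ → k), eval (Sum.elim b a) Q = eval (Sum.elim a b) P := by
      intro a b
      show eval (Sum.elim b a) (rename Sum.swap P) = _
      rw [eval_rename]
      have : Sum.elim b a ∘ Sum.swap = Sum.elim a b := by
        funext j
        rcases j with j | j <;> rfl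
      rw [this]
    obtain ⟨b, hb⟩ := exists_special Q hQ
    obtain ⟨g1, hg1, hg1'⟩ := c1.dom _ hb
    rw [eval_special, hev] at hg1'
    have h3 : (aeval (Sum.elim (fun i => C (c1.t g1 i)) X) P : MvPolynomial N₂ k) ≠ 0 := by
      intro h0
      apply hg1'
      rw [← eval_special, h0, map_zero]
    obtain ⟨g2, hg2, hg2'⟩ := c2.dom _ h3
    rw [eval_special] at hg2'
    exact ⟨(g1, g2), mul_ne_zero hg1 hg2, hg2'⟩
  · intro h hh g hg j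
    obtain ⟨hh1, hh2⟩ := (hcm h).mp hh
    rcases j with j | j
    · exact c1.inv h.1 hh1 g.1 (left_ne_zero_of_mul hg) j
    · exact c2.inv h.2 hh2 g.2 (right_ne_zero_of_mul hg) j
  · intro h hh
    obtain ⟨hh1, hh2⟩ := hcmm h hh
    obtain ⟨r1, hr1⟩ := c1.equiv h.1 hh1
    obtain ⟨r2, hr2⟩ := c2.equiv h.2 hh2
    refine ⟨fromBlocks r1 0 0 r2, fun g hg => ?_⟩
    obtain ⟨e1, e1'⟩ := hr1 g.1 (left_ne_zero_of_mul hg)
    obtain ⟨e2, e2'⟩ := hr2 g.2 (right_ne_zero_of_mul hg)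
    refine ⟨mul_ne_zero e1 e2, ?_⟩
    rintro (j | j)
    · rw [Fintype.sum_sum_type]
      simp only [Sum.elim_inl, Sum.elim_inr, fromBlocks_apply₁₁, fromBlocks_apply₁₂,
        Matrix.zero_apply, zero_mul, Finset.sum_const_zero, add_zero]
      exact e1' j
    · rw [Fintype.sum_sum_type]
      simp only [Sum.elim_inl, Sum.elim_inr, fromBlocks_apply₂₁, fromBlocks_apply₂₂,
        Matrix.zero_apply, zero_mul, Finset.sum_const_zero, zero_add]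
      exact e2' j

end Pool.Agent.Helper52.CG
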