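import Pool.Agent.Helper97.CG.Stmts

namespace Pool.Agent.Helper52.CG

open MvPolynomial Matrix Pool.Agent.Helper14.RG Pool.Agent.Helper97.CG

universe u

set_option linter.unusedSectionVars false

section Conj

variable {k : Type u} [Field k] {n m : Type} [Fintype n] [DecidableEq n] [Fintype m]
  [DecidableEq m]

lemma conj_mul (u : Matrix n m k) (v : Matrix m n k) (huv : u * v = 1) (a b : Matrix n n k) :
    (v * a * u) * (v * b * u) = v * (a * b) * u := by
  calc (v * a * u) * (v * b * u) = v * a * (u * v) * b * u := by simp only [Matrix.mul_assoc]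
    _ = v * (a * b) * u := by rw [huv, Matrix.mul_one]; simp only [Matrix.mul_assoc]

/-- The isomorphism `x ↦ v x u`. -/
def cj (J : Matrix n n k) (u : Matrix n m k) (v : Matrix m n k) (huv : u * v = 1)
    (hvu : v * u = 1) : IsoG J ≃* IsoG (uᵀ * J * u) where
  toFun x := ⟨⟨v * isoHom J x * u, by
      rw [Matrix.det_conj_of_mul_eq_one hvu huv]
      exact (x : Matrix.SpecialLinearGroup n k).2⟩, by
    have hx : (isoHom J x)ᵀ * J * isoHom J x = J := x.2
    have hvu' : vᵀ * uᵀ = 1 := by rw [← transpose_mul, huv, transpose_one]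
    show (v * isoHom J x * u)ᵀ * (uᵀ * J * u) * (v * isoHom J x * u) = uᵀ * J * u
    rw [transpose_mul, transpose_mul]
    calc uᵀ * ((isoHom J x)ᵀ * vᵀ) * (uᵀ * J * u) * (v * isoHom J x * u)
        = uᵀ * ((isoHom J x)ᵀ * (vᵀ * uᵀ) * J * (u * v) * isoHom J x) * u := by
          simp only [Matrix.mul_assoc]
      _ = uᵀ * J * u := by rw [hvu', huv, Matrix.mul_one, Matrix.mul_one, hx]⟩
  invFun y := ⟨⟨u * isoHom _ y * v, by
      rw [Matrix.det_conj_of_mul_eq_one huv hvu]
      exact (y : Matrix.SpecialLinearGroup m k).2⟩, by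
    have hy : (isoHom _ y)ᵀ * (uᵀ * J * u) * isoHom (uᵀ * J * u) y = uᵀ * J * u := y.2
    have hvu' : vᵀ * uᵀ = 1 := by rw [← transpose_mul, huv, transpose_one]
    show (u * isoHom _ y * v)ᵀ * J * (u * isoHom _ y * v) = J
    rw [transpose_mul, transpose_mul]
    calc vᵀ * ((isoHom (uᵀ * J * u) y)ᵀ * uᵀ) * J * (u * isoHom _ y * v)
        = vᵀ * ((isoHom (uᵀ * J * u) y)ᵀ * (uᵀ * J * u) * isoHom _ y) * v := by
          simp only [Matrix.mul_assoc]
      _ = (vᵀ * uᵀ) * J * (u * v) := by rw [hy]; simp only [Matrix.mul_assoc]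
      _ = J := by rw [hvu', huv, Matrix.mul_one, Matrix.one_mul]⟩
  left_inv x := by
    apply Subtype.ext
    apply Subtype.ext
    show u * (v * isoHom J x * u) * v = isoHom J x
    calc u * (v * isoHom J x * u) * v = (u * v) * isoHom J x * (u * v) := by
          simp only [Matrix.mul_assoc]
      _ = isoHom J x := by rw [huv, Matrix.one_mul, Matrix.mul_one]
  right_inv y := by
    apply Subtype.ext
    apply Subtype.ext
    show v * (u * isoHom (uᵀ * J * u) y * v) * u = isoHom (uᵀ * J * u) y
    calc v * (u * isoHom (uᵀ * J * u) y * v) * u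
        = (v * u) * isoHom (uᵀ * J * u) y * (v * u) := by
          simp only [Matrix.mul_assoc]
      _ = isoHom (uᵀ * J * u) y := by rw [hvu, Matrix.one_mul, Matrix.mul_one]
  map_mul' x y := by
    apply Subtype.ext
    apply Subtype.ext
    show v * isoHom J (x * y) * u = (v * isoHom J x * u) * (v * isoHom J y * u)
    rw [map_mul]
    rw [conj_mul u v huv]

lemma isoHom_cj (J : Matrix n n k) (u : Matrix n m k) (v : Matrix m n k) (huv : u * v = 1)
    (hvu : v * u = 1) (x : IsoG J) :
    isoHom (uᵀ * J * u) (cj J u v huv hvu x) = v * isoHom J x * u := rfl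

lemma conj_inj (u : Matrix n m k) (v : Matrix m n k) (huv : u * v = 1) {a b : Matrix n n k}
    (h : v * a * u = v * b * u) : a = b := by
  have h1 : u * (v * a * u) * v = u * (v * b * u) * v := by rw [h]
  have h2 : ∀ c : Matrix n n k, u * (v * c * u) * v = c := by
    intro c
    calc u * (v * c * u) * v = (u * v) * c * (u * v) := by simp only [Matrix.mul_assoc]
      _ = c := by rw [huv, Matrix.one_mul, Matrix.mul_one]
  rw [h2, h2] at h1
  exact h1

/-- transport along an isomorphism -/
lemma hasLChart_congr {k : Type*} [Field k] {G1 G2 : Type*} [Group G1] [Group G2]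
    {A1 : Subalgebra k (G1 → k)} {A2 : Subalgebra k (G2 → k)} {H2 H2' : Subgroup G2}
    (h : HasLChart A2 H2 H2') (e : G1 ≃* G2) (he : ∀ a ∈ A2, (fun g => a (e g)) ∈ A1) :
    HasLChart A1 (H2.comap e.toMonoidHom) (H2'.comap e.toMonoidHom) := by
  obtain ⟨N, hN, hD, ⟨ch⟩⟩ := h
  refine ⟨N, hN, hD, ⟨ch.transport _ _ (Subgroup.comap_mono ch.hH) e.toEquiv he e
    (fun h hh => hh) (fun h hh => hh) (fun h2 hh2 => ⟨e.symm h2, ?_, e.apply_symm_apply h2⟩)
    (fun h _ g => map_mul e g h)⟩⟩
  show e (e.symm h2) ∈ H2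
  rw [MulEquiv.apply_symm_apply]
  exact hh2

end Conj

theorem st_TRN {k : Type u} [Field k] [IsAlgClosed k] [CharZero k] : ST_TRN k := by
  intro n m _ _ _ _ J s u v huv hvu h
  have h1 := hasLChart_congr (A1 := mAlg (isoHom J)) h (cj J u v huv hvu) (by
    intro a ha
    induction ha using Algebra.adjoin_induction with
    | mem x hx =>
      obtain ⟨i, j, rfl⟩ := hx
      show (fun g : IsoG J => (v * isoHom J g * u) i j) ∈ mAlg (isoHom J)
      have h2 : (fun g : IsoG J => (v * isoHom J g * u) i j)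
          = ∑ l : n, ∑ l' : n, (v i l' * u l j) • (fun g : IsoG J => isoHom J g l' l) := by
        funext g
        simp only [Finset.sum_apply, Pi.smul_apply, smul_eq_mul, Matrix.mul_apply,
          Finset.sum_mul]
        exact Finset.sum_congr rfl fun l _ => Finset.sum_congr rfl fun l' _ => by ring
      rw [h2]
      have h3 : ∀ l' l : n, (fun g : IsoG J => isoHom J g l' l) ∈ mAlg (isoHom J) :=
        fun l' l => Algebra.subset_adjoin ⟨l', l, rfl⟩
      exact sum_mem fun l _ => sum_mem fun l' _ => Subalgebra.smul_mem _ (h3 l' l) _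
    | algebraMap r => exact Subalgebra.algebraMap_mem _ r
    | add x y _ _ hx hy => exact add_mem hx hy
    | mul x y _ _ hx hy => exact mul_mem hx hy)
  have e1 : (cm (isoHom (uᵀ * J * u)) (v * s * u)).comap (cj J u v huv hvu).toMonoidHom
      = cm (isoHom J) s := by
    ext g
    show (v * s * u) * (v * isoHom J g * u) = (v * isoHom J g * u) * (v * s * u) ↔
      s * isoHom J g = isoHom J g * s
    rw [conj_mul u v huv, conj_mul u v huv]
    exact ⟨fun h => conj_inj u v huv h, fun h => by rw [h]⟩
  have e2 : (cmm (isoHom (uᵀ * J * u)) (v * s * u)).comap (cj J u v huv hvu).toMonoidHom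
      = cmm (isoHom J) s := by
    ext g
    show ((v * s * u) * (v * isoHom J g * u) = (v * isoHom J g * u) * (v * s * u) ∨
        (v * s * u) * (v * isoHom J g * u) = -((v * isoHom J g * u) * (v * s * u))) ↔
      (s * isoHom J g = isoHom J g * s ∨ s * isoHom J g = -(isoHom J g * s))
    rw [conj_mul u v huv, conj_mul u v huv]
    have h3 : -(v * (isoHom J g * s) * u) = v * (-(isoHom J g * s)) * u := by
      rw [Matrix.mul_neg, Matrix.neg_mul]
    rw [h3]
    exact ⟨fun h => h.imp (conj_inj u v huv) (conj_inj u v huv),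
      fun h => h.imp (fun h => by rw [h]) (fun h => by rw [h])⟩
  rw [e1, e2] at h1
  exact h1

end Pool.Agent.Helper52.CG
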