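import Pool.Agent.Helper97.CG.Stmts

namespace Pool.Agent.Helper52.CG

open MvPolynomial Matrix Pool.Agent.Helper14.RG Pool.Agent.Helper97.CG

universe u

theorem st_W1N {k : Type u} [Field k] [IsAlgClosed k] [CharZero k] (hW1 : ST_W1 k)
    (hTRN : ST_TRN k) : ST_W1N k := by
  classical
  intro w ε Jw χ hJ hχJ hχ hno
  let P : Fin w → Prop := fun j => χ j = 1
  let e : {j // P j} ⊕ {j // ¬ P j} ≃ Fin w := Equiv.sumCompl P
  have hel : ∀ j : {j // P j}, e (Sum.inl j) = j := fun j => rfl
  have her : ∀ j : {j // ¬ P j}, e (Sum.inr j) = j := fun j => rfl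
  let u : Matrix (Fin w) ({j // P j} ⊕ {j // ¬ P j}) k :=
    (1 : Matrix (Fin w) (Fin w) k).submatrix id e
  let v : Matrix ({j // P j} ⊕ {j // ¬ P j}) (Fin w) k :=
    (1 : Matrix (Fin w) (Fin w) k).submatrix e id
  have huv : u * v = 1 := by
    show (1 : Matrix (Fin w) (Fin w) k).submatrix id e * (1 : Matrix (Fin w) (Fin w) k).submatrix e id
      = 1
    rw [Matrix.submatrix_mul_equiv, Matrix.one_mul, Matrix.submatrix_id_id]
  have hmul : ∀ M : Matrix (Fin w) (Fin w) k, v * M * u = M.submatrix e e := by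
    intro M
    ext i j
    have h1 : ∀ (i : {j // P j} ⊕ {j // ¬ P j}) (l : Fin w), (v * M) i l = M (e i) l := by
      intro i l
      rw [Matrix.mul_apply, Finset.sum_eq_single (e i)]
      · show (1 : Matrix (Fin w) (Fin w) k) (e i) (e i) * M (e i) l = _
        rw [Matrix.one_apply_eq, one_mul]
      · intro b _ hb
        show (1 : Matrix (Fin w) (Fin w) k) (e i) b * M b l = _
        rw [Matrix.one_apply_ne (Ne.symm hb), zero_mul]
      · intro h
        exact absurd (Finset.mem_univ _) h
    rw [Matrix.mul_apply, Finset.sum_eq_single (e j)]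
    · rw [h1]
      show M (e i) (e j) * (1 : Matrix (Fin w) (Fin w) k) (e j) (e j) = M (e i) (e j)
      rw [Matrix.one_apply_eq, mul_one]
    · intro b _ hb
      show (v * M) i b * (1 : Matrix (Fin w) (Fin w) k) b (e j) = _
      rw [Matrix.one_apply_ne hb, mul_zero]
    · intro h
      exact absurd (Finset.mem_univ _) h
  have hvu : v * u = 1 := by
    have h1 := hmul 1
    rw [Matrix.mul_one] at h1
    rw [h1]
    exact Matrix.submatrix_one_equiv e
  have huT : uᵀ = v := by
    show ((1 : Matrix (Fin w) (Fin w) k).submatrix id e)ᵀ = _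
    rw [Matrix.transpose_submatrix, Matrix.transpose_one]
  -- the entries of the form
  have hent : ∀ i j, χ i * Jw i j * χ j = Jw i j := by
    intro i j
    have h1 := congrFun (congrFun hχJ i) j
    rw [Matrix.mul_diagonal, Matrix.diagonal_transpose, Matrix.diagonal_mul] at h1
    exact h1
  have hpm : ∀ j, ¬ P j → χ j = -1 := fun j hj => (hχ j).resolve_left hj
  have h2k : (2 : k) ≠ 0 := two_ne_zero
  have hz1 : ∀ i j, P i → ¬ P j → Jw i j = 0 := by
    intro i j hi hj
    have h1 := hent i j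
    have hi' : χ i = 1 := hi
    rw [hi', hpm j hj] at h1
    have h2 : 2 * Jw i j = 0 := by linear_combination -h1
    exact (mul_eq_zero.mp h2).resolve_left h2k
  have hz2 : ∀ i j, ¬ P i → P j → Jw i j = 0 := by
    intro i j hi hj
    have h1 := hent i j
    have hj' : χ j = 1 := hj
    rw [hj', hpm i hi] at h1
    have h2 : 2 * Jw i j = 0 := by linear_combination -h1
    exact (mul_eq_zero.mp h2).resolve_left h2k
  let Jp : Matrix {j // P j} {j // P j} k := Jw.submatrix Subtype.val Subtype.val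
  let Jq : Matrix {j // ¬ P j} {j // ¬ P j} k := Jw.submatrix Subtype.val Subtype.val
  have hJe : Jw.submatrix e e = fromBlocks Jp 0 0 Jq := by
    ext i j
    rcases i with i | i <;> rcases j with j | j
    · rfl
    · exact hz1 _ _ i.2 j.2
    · exact hz2 _ _ i.2 j.2
    · rfl
  have hse : (diagonal χ).submatrix e e
      = (fromBlocks 1 0 0 (-1) : Matrix ({j // P j} ⊕ {j // ¬ P j}) _ k) := by
    ext i j
    rcases i with i | i <;> rcases j with j | j
    · show diagonal χ (i : Fin w) (j : Fin w) = (1 : Matrix {j // P j} {j // P j} k) i j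
      by_cases hij : i = j
      · subst hij
        rw [diagonal_apply_eq, Matrix.one_apply_eq]
        exact i.2
      · rw [diagonal_apply_ne _ (fun h => hij (Subtype.ext h)), Matrix.one_apply_ne hij]
    · refine diagonal_apply_ne _ (fun h => j.2 ?_)
      have h' : (i : Fin w) = (j : Fin w) := h
      rw [← h']
      exact i.2
    · refine diagonal_apply_ne _ (fun h => i.2 ?_)
      have h' : (i : Fin w) = (j : Fin w) := h
      rw [h']
      exact j.2
    · show diagonal χ (i : Fin w) (j : Fin w) = -(1 : Matrix {j // ¬ P j} {j // ¬ P j} k) i j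
      by_cases hij : i = j
      · subst hij
        rw [diagonal_apply_eq, Matrix.one_apply_eq]
        exact hpm _ i.2
      · rw [diagonal_apply_ne _ (fun h => hij (Subtype.ext h)), Matrix.one_apply_ne hij, neg_zero]
  have hdet : Jp.det * Jq.det ≠ 0 := by
    rw [← Matrix.det_fromBlocks_zero₂₁, ← hJe, Matrix.det_submatrix_equiv_self]
    exact hJ.det_ne
  have hsym : ∀ i j, Jw j i = ε * Jw i j := by
    intro i j
    exact congrFun (congrFun hJ.symm i) j
  have hp : IsForm ε Jp := ⟨hJ.eps, by
    ext i j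
    exact hsym _ _, left_ne_zero_of_mul hdet⟩
  have hq : IsForm ε Jq := ⟨hJ.eps, by
    ext i j
    exact hsym _ _, right_ne_zero_of_mul hdet⟩
  have hJu : uᵀ * Jw * u = fromBlocks Jp 0 0 Jq := by rw [huT, hmul, hJe]
  have hsu : v * diagonal χ * u = fromBlocks 1 0 0 (-1) := by rw [hmul, hse]
  have hmain := hW1 {j // P j} {j // ¬ P j} ε Jp Jq hp hq (by
    intro x hx
    have hx1 : (isoHom _ x)ᵀ * fromBlocks Jp 0 0 Jq * isoHom (fromBlocks Jp 0 0 Jq) x
      = fromBlocks Jp 0 0 Jq := x.2
    have hvu' : vᵀ * uᵀ = 1 := by rw [← transpose_mul, huv, transpose_one]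
    let y : Matrix (Fin w) (Fin w) k := u * isoHom _ x * v
    have hy1 : yᵀ * Jw * y = Jw := by
      show (u * isoHom _ x * v)ᵀ * Jw * (u * isoHom _ x * v) = Jw
      rw [transpose_mul, transpose_mul]
      calc vᵀ * ((isoHom (fromBlocks Jp 0 0 Jq) x)ᵀ * uᵀ) * Jw * (u * isoHom _ x * v)
          = vᵀ * ((isoHom (fromBlocks Jp 0 0 Jq) x)ᵀ * (uᵀ * Jw * u) * isoHom _ x) * v := by
            simp only [Matrix.mul_assoc]
        _ = vᵀ * (uᵀ * Jw * u) * v := by rw [hJu, hx1]
        _ = (vᵀ * uᵀ) * Jw * (u * v) := by simp only [Matrix.mul_assoc]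
        _ = Jw := by rw [hvu', huv, Matrix.mul_one, Matrix.one_mul]
    have hy2 : y.det = 1 := by
      show (u * isoHom _ x * v).det = 1
      rw [Matrix.det_conj_of_mul_eq_one huv hvu]
      exact (x : Matrix.SpecialLinearGroup ({j // P j} ⊕ {j // ¬ P j}) k).2
    refine hno ⟨⟨y, hy2⟩, hy1⟩ ?_
    show diagonal χ * (u * isoHom _ x * v) = -((u * isoHom _ x * v) * diagonal χ)
    calc diagonal χ * (u * isoHom (fromBlocks Jp 0 0 Jq) x * v)
        = (u * v) * diagonal χ * (u * isoHom _ x * v) := by rw [huv, Matrix.one_mul]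
      _ = u * ((v * diagonal χ * u) * isoHom _ x) * v := by simp only [Matrix.mul_assoc]
      _ = u * (-(isoHom (fromBlocks Jp 0 0 Jq) x * (v * diagonal χ * u))) * v := by rw [hsu, hx]
      _ = -(u * (isoHom (fromBlocks Jp 0 0 Jq) x * (v * diagonal χ * u)) * v) := by
        rw [Matrix.mul_neg, Matrix.neg_mul]
      _ = -((u * isoHom (fromBlocks Jp 0 0 Jq) x * v) * diagonal χ * (u * v)) := by
        simp only [Matrix.mul_assoc]
      _ = -((u * isoHom _ x * v) * diagonal χ) := by rw [huv, Matrix.mul_one])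
  rw [← hJu, ← hsu] at hmain
  exact hTRN (Fin w) _ Jw (diagonal χ) u v huv hvu hmain

end Pool.Agent.Helper52.CG
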